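import Mathlib

/-!
# MP_496e47_co : a skew shape with a unique cyclic descent map and three descent numbers

The straight shape `(3,3)` has exactly one cyclic descent map, but the numbers of descents of its
standard Young tableaux are `1, 2, 3`.
-/

set_option autoImplicit false

open Finset

namespace Pool.Agent.Results.MP_496e47_co.RectangleTwoThree

/-- `S` is the set of cells (row, column) of a skew shape `λ/μ`. -/
def IsSkewShape (S : Finset (ℕ × ℕ)) : Prop :=
  ∃ lam mu : YoungDiagram, mu ≤ lam ∧ S = lam.cells \ mu.cells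

/-- A standard Young tableau of shape `S` with `n` cells; the entries `1, …, n` are represented by
the elements `0, …, n - 1` of `Fin n`. -/
@[ext] structure SYT (S : Finset (ℕ × ℕ)) (n : ℕ) where
  /-- the bijective filling -/
  entry : {c : ℕ × ℕ // c ∈ S} ≃ Fin n
  /-- the entries increase along the rows -/
  row_lt : ∀ c d : {c : ℕ × ℕ // c ∈ S}, c.1.1 = d.1.1 → c.1.2 < d.1.2 → entry c < entry d
  /-- the entries increase down the columns -/
  col_lt : ∀ c d : {c : ℕ × ℕ // c ∈ S}, c.1.2 = d.1.2 → c.1.1 < d.1.1 → entry c < entry d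

variable {S : Finset (ℕ × ℕ)} {n : ℕ}

/-- The descent set: the entries `i`, other than the largest one, such that the next entry lies in
a row strictly below the row of `i`. -/
def Des (T : SYT S n) : Finset (Fin n) :=
  univ.filter fun i => ∃ h : i.1 + 1 < n, (T.entry.symm i).1.1 < (T.entry.symm ⟨i.1 + 1, h⟩).1.1

/-- `cDes` is a cyclic descent map for `S`. (The addition in `Fin n` is modulo `n`.) -/
def IsCyclicDescentMap [NeZero n] (cDes : SYT S n → Finset (Fin n)) : Prop :=
  ∃ φ : SYT S n ≃ SYT S n, ∀ T,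
    (∀ i : Fin n, i.1 + 1 < n → (i ∈ cDes T ↔ i ∈ Des T)) ∧
      cDes (φ T) = (cDes T).image (· + 1) ∧ (cDes T).Nonempty ∧ cDes T ≠ univ

/-- The set of the descent numbers. -/
def descentNumbers (S : Finset (ℕ × ℕ)) (n : ℕ) : Set ℕ := {k | ∃ T : SYT S n, (Des T).card = k}

/-! ### The shape `(3,3)` -/

/-- The cells of the shape `(3,3)`. -/
def R : Finset (ℕ × ℕ) := {(0, 0), (0, 1), (0, 2), (1, 0), (1, 1), (1, 2)}

theorem R_skew : IsSkewShape R := by
  refine ⟨⟨R, ?_⟩, ⊥, bot_le, ?_⟩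
  · rintro ⟨a, b⟩ ⟨c, d⟩ ⟨h1, h2⟩ h
    simp only at h1 h2
    simp only [R, coe_insert, coe_singleton, Set.mem_insert_iff, Prod.mk.injEq,
      Set.mem_singleton_iff] at h ⊢
    omega
  · simp

/-- The cells in the order `(0,0), (0,1), (0,2), (1,0), (1,1), (1,2)`. -/
def cell : Fin 6 → {c : ℕ × ℕ // c ∈ R} :=
  ![⟨(0, 0), by decide⟩, ⟨(0, 1), by decide⟩, ⟨(0, 2), by decide⟩, ⟨(1, 0), by decide⟩,
    ⟨(1, 1), by decide⟩, ⟨(1, 2), by decide⟩]

/-- The position of a cell in the list of the cells. -/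
def idx (c : {c : ℕ × ℕ // c ∈ R}) : Fin 6 := ⟨3 * c.1.1 + c.1.2, by
  obtain ⟨⟨a, b⟩, h⟩ := c
  simp only [R, mem_insert, Prod.mk.injEq, mem_singleton] at h
  simp only
  omega⟩

theorem cell_idx (c : {c : ℕ × ℕ // c ∈ R}) : cell (idx c) = c := by
  revert c
  decide

theorem idx_cell : ∀ i, idx (cell i) = i := by decide

/-- The tableau with the entries `f 0, …, f 5`, where `g` is the inverse of `f`. -/
def mk (f g : Fin 6 → Fin 6) (h1 : ∀ i, g (f i) = i) (h2 : ∀ i, f (g i) = i)
    (hr : ∀ c d : {c : ℕ × ℕ // c ∈ R}, c.1.1 = d.1.1 → c.1.2 < d.1.2 → f (idx c) < f (idx d))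
    (hc : ∀ c d : {c : ℕ × ℕ // c ∈ R}, c.1.2 = d.1.2 → c.1.1 < d.1.1 → f (idx c) < f (idx d)) :
    SYT R 6 where
  entry := ⟨fun c => f (idx c), fun i => cell (g i), fun c => by
      change cell (g (f (idx c))) = c
      rw [h1, cell_idx],
    fun i => by
      change f (idx (cell (g i))) = i
      rw [idx_cell, h2]⟩
  row_lt := hr
  col_lt := hc

/-- The five tableaux. -/
def tab : Fin 5 → SYT R 6 :=
  ![mk ![0, 1, 2, 3, 4, 5] ![0, 1, 2, 3, 4, 5] (by decide) (by decide) (by decide) (by decide),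
    mk ![0, 1, 3, 2, 4, 5] ![0, 1, 3, 2, 4, 5] (by decide) (by decide) (by decide) (by decide),
    mk ![0, 1, 4, 2, 3, 5] ![0, 1, 3, 4, 2, 5] (by decide) (by decide) (by decide) (by decide),
    mk ![0, 2, 3, 1, 4, 5] ![0, 3, 1, 2, 4, 5] (by decide) (by decide) (by decide) (by decide),
    mk ![0, 2, 4, 1, 3, 5] ![0, 3, 1, 4, 2, 5] (by decide) (by decide) (by decide) (by decide)]

/-- The descent sets of the five tableaux. -/
def des5 : Fin 5 → Finset (Fin 6) := ![{2}, {1, 3}, {1, 4}, {0, 3}, {0, 2, 4}]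

/-- The cyclic descent sets of the five tableaux. -/
def cdes5 : Fin 5 → Finset (Fin 6) := ![{2, 5}, {1, 3, 5}, {1, 4}, {0, 3}, {0, 2, 4}]

theorem Des_tab : ∀ i, Des (tab i) = des5 i := by decide

/-- The entries of the five tableaux. -/
def ent (i : Fin 5) (j : Fin 6) : Fin 6 := (tab i).entry (cell j)

/-- The conditions on the entries. -/
def cond (a b c d e f : Fin 6) : Prop :=
  a < b ∧ b < c ∧ d < e ∧ e < f ∧ a < d ∧ b < e ∧ c < f ∧ c ≠ d ∧ c ≠ e ∧ b ≠ d

instance (a b c d e f : Fin 6) : Decidable (cond a b c d e f) := by unfold cond; infer_instance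

/-- The entries are those of one of the five tableaux. -/
def listed (a b c d e f : Fin 6) : Prop :=
  ∃ i : Fin 5, a = ent i 0 ∧ b = ent i 1 ∧ c = ent i 2 ∧ d = ent i 3 ∧ e = ent i 4 ∧ f = ent i 5

instance (a b c d e f : Fin 6) : Decidable (listed a b c d e f) := by
  unfold listed; infer_instance

theorem classify : ∀ a b c d e f : Fin 6, cond a b c d e f → listed a b c d e f := by
  decide +kernel

theorem tab_surj : Function.Surjective tab := by
  intro T
  have hrow := T.row_lt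
  have hcol := T.col_lt
  have hne : ∀ x y : {c : ℕ × ℕ // c ∈ R}, x ≠ y → T.entry x ≠ T.entry y :=
    fun x y h h' => h (T.entry.injective h')
  obtain ⟨i, h0, h1, h2, h3, h4, h5⟩ := classify (T.entry (cell 0)) (T.entry (cell 1))
    (T.entry (cell 2)) (T.entry (cell 3)) (T.entry (cell 4)) (T.entry (cell 5))
    ⟨hrow _ _ (by decide) (by decide), hrow _ _ (by decide) (by decide),
      hrow _ _ (by decide) (by decide), hrow _ _ (by decide) (by decide),
      hcol _ _ (by decide) (by decide), hcol _ _ (by decide) (by decide),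
      hcol _ _ (by decide) (by decide), hne _ _ (by decide), hne _ _ (by decide),
      hne _ _ (by decide)⟩
  refine ⟨i, ?_⟩
  apply SYT.ext
  apply Equiv.ext
  intro x
  rw [← cell_idx x]
  generalize idx x = j
  fin_cases j
  · exact h0.symm
  · exact h1.symm
  · exact h2.symm
  · exact h3.symm
  · exact h4.symm
  · exact h5.symm

theorem tab_inj : Function.Injective tab := by
  intro i j h
  have h' : des5 i = des5 j := by rw [← Des_tab, ← Des_tab, h]
  exact (by decide : ∀ i j : Fin 5, des5 i = des5 j → i = j) i j h'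

/-- The bijection between `Fin 5` and the tableaux. -/
noncomputable def E : Fin 5 ≃ SYT R 6 := Equiv.ofBijective tab ⟨tab_inj, tab_surj⟩

theorem E_apply (i : Fin 5) : E i = tab i := rfl

/-- The rotation of the five tableaux. -/
def rot5 : Equiv.Perm (Fin 5) where
  toFun := ![3, 4, 0, 2, 1]
  invFun := ![2, 4, 3, 0, 1]
  left_inv := by decide
  right_inv := by decide

theorem exists_cdes : IsCyclicDescentMap (fun T : SYT R 6 => cdes5 (E.symm T)) := by
  refine ⟨(E.symm.trans rot5).trans E, fun T => ?_⟩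
  obtain ⟨i, rfl⟩ := E.surjective T
  have h1 : (∀ j : Fin 6, j.1 + 1 < 6 → (j ∈ cdes5 i ↔ j ∈ des5 i)) ∧
      cdes5 (rot5 i) = (cdes5 i).image (· + 1) ∧ (cdes5 i).Nonempty ∧ cdes5 i ≠ univ :=
    (by decide : ∀ i : Fin 5, (∀ j : Fin 6, j.1 + 1 < 6 → (j ∈ cdes5 i ↔ j ∈ des5 i)) ∧
      cdes5 (rot5 i) = (cdes5 i).image (· + 1) ∧ (cdes5 i).Nonempty ∧ cdes5 i ≠ univ) i
  have h2 : Des (E i) = des5 i := by rw [E_apply, Des_tab]
  simp only [Equiv.trans_apply, Equiv.symm_apply_apply]
  rw [h2]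
  exact h1

theorem forced : ∀ (i : Fin 5) (X : Finset (Fin 6)),
    (∀ j : Fin 6, j.1 + 1 < 6 → (j ∈ X ↔ j ∈ des5 i)) →
    (∃ i' : Fin 5, ∀ j : Fin 6, j.1 + 1 < 6 → (j ∈ X.image (· + 1) ↔ j ∈ des5 i')) →
    X = cdes5 i := by
  decide +kernel

theorem unique_cdes (c : SYT R 6 → Finset (Fin 6)) (hc : IsCyclicDescentMap c) :
    c = fun T => cdes5 (E.symm T) := by
  obtain ⟨φ, hφ⟩ := hc
  funext T
  obtain ⟨i, rfl⟩ := E.surjective T
  rw [Equiv.symm_apply_apply]
  have hD : ∀ k, Des (E k) = des5 k := fun k => by rw [E_apply, Des_tab]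
  refine forced i (c (E i)) ?_ ?_
  · rw [← hD]
    exact (hφ (E i)).1
  · obtain ⟨k, hk⟩ := E.surjective (φ (E i))
    refine ⟨k, ?_⟩
    rw [← (hφ (E i)).2.1, ← hk, ← hD]
    exact (hφ (E k)).1

theorem numbers : descentNumbers R 6 = {1, 2, 3} := by
  ext k
  constructor
  · rintro ⟨T, rfl⟩
    obtain ⟨i, rfl⟩ := E.surjective T
    rw [E_apply, Des_tab]
    simp only [Set.mem_insert_iff, Set.mem_singleton_iff]
    revert i
    decide
  · intro hk
    simp only [Set.mem_insert_iff, Set.mem_singleton_iff] at hk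
    rcases hk with rfl | rfl | rfl
    · exact ⟨tab 0, by rw [Des_tab]; decide⟩
    · exact ⟨tab 1, by rw [Des_tab]; decide⟩
    · exact ⟨tab 4, by rw [Des_tab]; decide⟩

/-- **MP_496e47_co, Q1 (disproof).** There is a skew shape (the straight shape `(3,3)`, with 6
cells) that has exactly one cyclic descent map, but whose set of descent numbers is `{1, 2, 3}`,
hence not of the form `{k - 1, k}`. -/
theorem result : ∃ S : Finset (ℕ × ℕ), IsSkewShape S ∧ S.card = 6 ∧
    (∃! c : SYT S 6 → Finset (Fin 6), IsCyclicDescentMap c) ∧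
    descentNumbers S 6 = {1, 2, 3} ∧ ¬ ∃ k : ℕ, descentNumbers S 6 = {k, k + 1} := by
  refine ⟨R, R_skew, by decide, ⟨_, exists_cdes, unique_cdes⟩, numbers, ?_⟩
  rintro ⟨k, hk⟩
  rw [numbers] at hk
  have h1 : (1 : ℕ) ∈ ({k, k + 1} : Set ℕ) := by rw [← hk]; simp
  have h3 : (3 : ℕ) ∈ ({k, k + 1} : Set ℕ) := by rw [← hk]; simp
  simp only [Set.mem_insert_iff, Set.mem_singleton_iff] at h1 h3
  omega

end Pool.Agent.Results.MP_496e47_co.RectangleTwoThree
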